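import Pool.Agent.Run7.h26.QI.Cr
import Pool.Agent.Run7.h26.QI.Ct9

/-!
# The Birch and Swinnerton-Dyer conjecture for more than a third of ALL quadratic twists of
# `y² = x³ - x` over `ℚ(i)`

`K` is a number field with an isomorphism `e` of the ring `ℤ[i]` of Gaussian integers with its ring
of integers (so `K = ℚ(i)`), and `E_g : y² = x³ - g² x` the quadratic twist of `y² = x³ - x` by
the Gaussian integer `g`. Up to sign (`E_g = E_{-g}`) the squarefree `g` are the quadratic twists. Every
squarefree `g` is `u D` or `(1 + i) u D` with `D` squarefree, `D ≡ 1 mod 2 + 2i` and a unit `u`. An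
explicit criterion on the quadratic symbols between the prime factors of `D` (and of these primes with
`i` and `1 + i`) implies the rank part of the conjecture of Birch and Swinnerton-Dyer for `E_g / K` with
order of vanishing and rank zero. It applies to all squarefree `g` whose imaginary part is not divisible
by `4` (five sixths of all), and exactly the proportion `κ = ∏_{i ≥ 0} (1 - 2^{-(2i+1)}) = 0.4194...` of
these, ordered by norm, satisfies it.

Earlier: `g = ± D` with `N(D) ≡ 5 mod 8` (positive proportion: starting file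
`MP_1a91b9_nt.PositiveProportionGaussianTwists`, helper699; exact proportion: helper691, project GZ,
`Pool/Agent/Run7/h691/GZ`), one sixth of all twists, all of them odd. New here: the three classes
`g = ± i D`, `g = ± (1 + i) D`, `g = ± i (1 + i) D` without any congruence condition on `D` (two thirds of
all twists, the ones ramified at `1 + i` included), where the central value is a sum over the divisors of
`D` whose terms are twists by Hecke characters of conductors dividing `4`, `4 (1 + i)`, and the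
exact count of the criterion in these classes (`Pool/Agent/Run7/h26/QI`).
-/

set_option autoImplicit false

namespace Pool.Agent.Results.MP_cd906c_nt.GaussianTwistsFiveSixths

open NumberField IsDedekindDomain

/-- `W v` is, for every finite place `v`, an integral model of `E` with discriminant minimal at
`v`. -/
def MinimalModels {K : Type} [Field K] [NumberField K] (E : WeierstrassCurve K)
    (W : HeightOneSpectrum (𝓞 K) → WeierstrassCurve (𝓞 K)) : Prop :=
  ∀ v : HeightOneSpectrum (𝓞 K),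
    (∃ C : WeierstrassCurve.VariableChange K, C • (W v).map (algebraMap (𝓞 K) K) = E) ∧
    ∀ W' : WeierstrassCurve (𝓞 K),
      (∃ C : WeierstrassCurve.VariableChange K, C • W'.map (algebraMap (𝓞 K) K) = E) →
      ∀ n : ℕ, (W v).Δ ∈ v.asIdeal ^ n → W'.Δ ∈ v.asIdeal ^ n

open Classical in
/-- The Euler factor at `v`, `(1 - a_v Nv^{-s} + Nv^{1-2s})⁻¹` if the reduction at `v` is good and
`(1 - a_v Nv^{-s})⁻¹` if it is bad, where `a_v` is `Nv` minus the number of affine points of the
reduction of `W v`. -/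
noncomputable def localFactor {K : Type} [Field K] [NumberField K]
    (W : HeightOneSpectrum (𝓞 K) → WeierstrassCurve (𝓞 K)) (v : HeightOneSpectrum (𝓞 K))
    (s : ℂ) : ℂ :=
  (1 - ((Ideal.absNorm v.asIdeal : ℂ)
        - (Nat.card {xy : (𝓞 K ⧸ v.asIdeal) × (𝓞 K ⧸ v.asIdeal) //
            ((W v).map (Ideal.Quotient.mk v.asIdeal)).toAffine.Equation xy.1 xy.2} : ℂ))
        * (Ideal.absNorm v.asIdeal : ℂ) ^ (-s)
    + (if (W v).Δ ∈ v.asIdeal then 0 else (Ideal.absNorm v.asIdeal : ℂ))
        * (Ideal.absNorm v.asIdeal : ℂ) ^ (-2 * s))⁻¹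

/-- The rank part of the conjecture for `E`, with order and rank equal to `r`: `E` has minimal models,
its `L`-series, the product of the Euler factors for `Re s > 3/2`, extends to an entire function `L`
with a zero of order `r` at `s = 1`, and the group `E(K)` is finitely generated of rank `r`. -/
def BSDRank {K : Type} [Field K] [NumberField K] [DecidableEq K] (E : WeierstrassCurve K) (r : ℕ) :
    Prop :=
  (∃ W : HeightOneSpectrum (𝓞 K) → WeierstrassCurve (𝓞 K), MinimalModels E W) ∧
  (∃ L : ℂ → ℂ, Differentiable ℂ L ∧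
    (∀ W : HeightOneSpectrum (𝓞 K) → WeierstrassCurve (𝓞 K), MinimalModels E W →
      ∀ s : ℂ, 3 / 2 < s.re → HasProd (fun v => localFactor W v s) (L s)) ∧
    analyticOrderAt L 1 = r) ∧
  Module.Finite ℤ E.toAffine.Point ∧ Module.finrank ℤ E.toAffine.Point = r

/-- The curve `y² = x³ - g² x`. -/
noncomputable def twist {K : Type} [Field K] [NumberField K] (e : GaussianInt ≃+* 𝓞 K)
    (g : GaussianInt) : WeierstrassCurve K :=
  ⟨0, 0, 0, -(algebraMap (𝓞 K) K (e g)) ^ 2, 0⟩

/-- For `K = ℚ(i)` (every number field `K` with an isomorphism `e` of `ℤ[i]` with its ring of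
integers), the rank part of the conjecture holds for `y² = x³ - g² x` over `K` with order of vanishing
and rank equal to zero, and this curve has exactly four points over `K`. -/
def Proved (g : GaussianInt) : Prop :=
  ∀ (K : Type) [Field K] [NumberField K] [DecidableEq K] (e : GaussianInt ≃+* 𝓞 K),
    BSDRank (twist e g) 0 ∧ Nat.card (twist e g).toAffine.Point = 4

/-- `D ≡ 1 mod 2 + 2i`. -/
def Primary (D : GaussianInt) : Prop := (⟨2, 2⟩ : GaussianInt) ∣ D - 1

/-- `D ≡ 1 mod 2 + 2i` is squarefree. -/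
def SquarefreePrimary (D : GaussianInt) : Prop := Primary D ∧ Squarefree D

/-- `a` is a square modulo each prime factor of `d`. -/
def SquareMod (d a : GaussianInt) : Prop :=
  ∀ π : GaussianInt, Prime π → π ∣ d → ∃ b, π ∣ a - b ^ 2

/-- The criterion for `g = c D`: the only factorisation `D = d d'` with `d`, `d'` primary, `c d'` a square
modulo each prime factor of `d` and `d` a square modulo each prime factor of `d'` is the one with
`d = 1`. -/
def Criterion (c D : GaussianInt) : Prop :=
  ∀ d d' : GaussianInt, Primary d → Primary d' → D = d * d' →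
    SquareMod d (c * d') → SquareMod d' d → d = 1

/-- The criterion for `g = D`: the only factorisations `D = d d'` with `d`, `d'` primary, `d'` a square
modulo each prime factor of `d` and `d` a square modulo each prime factor of `d'` are the ones with
`d = 1` or `d' = 1`. -/
def CriterionOne (D : GaussianInt) : Prop :=
  ∀ d d' : GaussianInt, Primary d → Primary d' → D = d * d' →
    SquareMod d d' → SquareMod d' d → d = 1 ∨ d' = 1

/-- `c` is `i`, `1 + i` or `i (1 + i)`. -/
def IsTwistor (c : GaussianInt) : Prop := c = ⟨0, 1⟩ ∨ c = ⟨1, 1⟩ ∨ c = ⟨0, 1⟩ * ⟨1, 1⟩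

/-- The explicit set of `g`: `g = ± D` with `D` squarefree and primary, `N(D) ≡ 5 mod 8` and the
criterion for `D`; or `g = ± c D` with `c` one of `i`, `1 + i`, `i (1 + i)`, `D` squarefree and
primary, and the criterion for `c D`. -/
def Good (g : GaussianInt) : Prop :=
  (∃ D, (g = D ∨ g = -D) ∧ SquarefreePrimary D ∧ D.norm % 8 = 5 ∧ CriterionOne D) ∨
  ∃ c D, IsTwistor c ∧ (g = c * D ∨ g = -(c * D)) ∧ SquarefreePrimary D ∧ Criterion c D

/-- The number of the Gaussian integers of norm at most `X` with the property `P`. -/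
noncomputable def num (P : GaussianInt → Prop) (X : ℕ) : ℕ := {D : GaussianInt | D.norm ≤ X ∧ P D}.ncard

/-- The infinite product `(1 - 1/2) (1 - 1/8) (1 - 1/32) ⋯`. -/
noncomputable def κ : ℝ := ∏' i : ℕ, (1 - (1 / 2 : ℝ) ^ (2 * i + 1))

theorem norm_iff (D : GaussianInt) (X : ℕ) : D.norm ≤ X ↔ H385.nrm D ≤ X := by
  have h0 : ((H385.nrm D : ℕ) : ℤ) = D.norm := GaussianInt.abs_natCast_norm D
  omega

theorem num_eq (P : GaussianInt → Prop) (X : ℕ) : num P X = Run7.h26.QI.nQ P X := by
  unfold num Run7.h26.QI.nQ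
  congr 1
  ext D
  exact and_congr_left fun _ => norm_iff D X

theorem num_congr {P Q : GaussianInt → Prop} (h : ∀ g, P g ↔ Q g) (X : ℕ) : num P X = num Q X := by
  unfold num
  congr 1
  ext g
  exact and_congr_right fun _ => h g

theorem num_mono {P Q : GaussianInt → Prop} (h : ∀ g, P g → Q g) (X : ℕ) : num P X ≤ num Q X := by
  rw [num_eq, num_eq]
  exact Set.ncard_le_ncard (fun g hg => ⟨hg.1, h g hg.2⟩) (Run7.h26.QI.fin_Q Q X)

theorem primary_iff (D : GaussianInt) : Primary D ↔ Pool.Agent.H304R2.EC.A1.prim D :=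
  (Pool.Agent.W164.RC.prim_iff_dvd D).symm

theorem sp_iff (D : GaussianInt) : SquarefreePrimary D ↔ Pool.Agent.Y699.PS D :=
  ⟨fun h => ⟨(primary_iff D).1 h.1, h.2⟩, fun h => ⟨(primary_iff D).2 h.prm, h.sqf⟩⟩

theorem square_iff {d a : GaussianInt} (hd0 : d ≠ 0) (ho : d.norm % 2 = 1)
    (hnd : ∀ π : GaussianInt, Prime π → π ∣ d → ¬ π ∣ a) :
    SquareMod d a ↔ ∀ π ∈ Pool.Agent.Y699.PD d, Pool.Agent.Y699.qr π a = 1 := by
  constructor
  · intro h π hπ
    rw [Pool.Agent.Y699.mem_PD hd0] at hπ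
    have h1 := hnd π hπ.1.pr hπ.2
    have h2 := h π hπ.1.pr hπ.2
    unfold Pool.Agent.Y699.qr
    rw [if_neg h1, if_pos h2]
  · intro h π hπ hπd
    have hodd : π.norm % 2 = 1 := Pool.Agent.Y699.odd_of_dvd hπd ho
    obtain ⟨ρ, hρ, hass⟩ := Pool.Agent.Y699.exists_PP hπ hodd
    have hρd : ρ ∣ d := hass.dvd.trans hπd
    have h1 := h ρ ((Pool.Agent.Y699.mem_PD hd0).2 ⟨hρ, hρd⟩)
    unfold Pool.Agent.Y699.qr at h1
    rw [if_neg (hnd ρ hρ.pr hρd)] at h1
    by_contra hc
    rw [if_neg (fun ⟨b, hb⟩ => hc ⟨b, hass.symm.dvd.trans hb⟩)] at h1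
    exact absurd h1 (by norm_num)

theorem factor_data {D d d' : GaussianInt} (hD : Pool.Agent.Y699.PS D) (he : D = d * d') :
    d ≠ 0 ∧ d.norm % 2 = 1 ∧ ∀ π : GaussianInt, Prime π → π ∣ d → ¬ π ∣ d' := by
  have hd0 : d ≠ 0 := by
    rintro rfl
    exact hD.ne (by rw [he, zero_mul])
  have ho : D.norm % 2 = 1 := Pool.Agent.H304R2.EC.A1.prim_norm_odd hD.prm
  refine ⟨hd0, Pool.Agent.Y699.odd_of_dvd ⟨d', he⟩ ho, ?_⟩
  intro π hπ h1 h2
  exact hπ.not_isUnit (hD.sqf π (by rw [he]; exact mul_dvd_mul h1 h2))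

theorem twistor_iff (c : GaussianInt) : IsTwistor c ↔ Run7.h26.QI.cc3 c := Iff.rfl

theorem not_dvd_twistor {c π : GaussianInt} (hc : IsTwistor c) (hπ : Prime π) (ho : π.norm % 2 = 1) :
    ¬ π ∣ c := by
  obtain ⟨ρ, hρ, hass⟩ := Pool.Agent.Y699.exists_PP hπ ho
  intro h
  exact Run7.h26.QI.not_dvd_cc3 ((twistor_iff c).1 hc) hρ (hass.dvd.trans h)

theorem crit_iff {c D : GaussianInt} (hc : IsTwistor c) :
    (SquarefreePrimary D ∧ Criterion c D) ↔ Run7.h26.QI.GoodC c D := by
  have main : ∀ d d' : GaussianInt, Pool.Agent.Y699.PS D → D = d * d' →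
      ((SquareMod d (c * d') ↔ ∀ π ∈ Pool.Agent.Y699.PD d, Pool.Agent.Y699.qr π (c * d') = 1) ∧
      (SquareMod d' d ↔ ∀ π ∈ Pool.Agent.Y699.PD d', Pool.Agent.Y699.qr π d = 1)) := by
    intro d d' hD he
    obtain ⟨a1, a2, a3⟩ := factor_data hD he
    obtain ⟨b1, b2, b3⟩ := factor_data hD (by rw [he, mul_comm] : D = d' * d)
    refine ⟨square_iff a1 a2 ?_, square_iff b1 b2 b3⟩
    intro π hπ h1 h2
    rcases hπ.dvd_or_dvd h2 with h3 | h3
    · exact not_dvd_twistor hc hπ (Pool.Agent.Y699.odd_of_dvd h1 a2) h3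
    · exact a3 π hπ h1 h3
  constructor
  · rintro ⟨h1, h2⟩
    have hD := (sp_iff D).1 h1
    refine ⟨hD, fun d d' hd hd' he k1 k2 => ?_⟩
    obtain ⟨m1, m2⟩ := main d d' hD he
    exact h2 d d' ((primary_iff d).2 hd) ((primary_iff d').2 hd') he (m1.2 k1) (m2.2 k2)
  · intro h
    refine ⟨(sp_iff D).2 h.ps, fun d d' hd hd' he k1 k2 => ?_⟩
    obtain ⟨m1, m2⟩ := main d d' h.ps he
    exact h.ker d d' ((primary_iff d).1 hd) ((primary_iff d').1 hd') he (m1.1 k1) (m2.1 k2)

theorem one_iff (D : GaussianInt) :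
    (SquarefreePrimary D ∧ D.norm % 8 = 5 ∧ CriterionOne D) ↔ Pool.Agent.H691.GZ.GoodE {5, 13} D := by
  have h0 : ((H385.nrm D : ℕ) : ℤ) = D.norm := GaussianInt.abs_natCast_norm D
  have main : ∀ d d' : GaussianInt, Pool.Agent.Y699.PS D → D = d * d' →
      (SquareMod d d' ↔ ∀ π ∈ Pool.Agent.Y699.PD d, Pool.Agent.Y699.qr π d' = 1) := by
    intro d d' hD he
    obtain ⟨a1, a2, a3⟩ := factor_data hD he
    exact square_iff a1 a2 a3
  constructor
  · rintro ⟨h1, h2, h3⟩
    have hD := (sp_iff D).1 h1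
    refine ⟨⟨hD, ?_⟩, fun d d' hd hd' he k1 k2 => ?_⟩
    · rw [Finset.mem_insert, Finset.mem_singleton]
      rw [← h0] at h2
      omega
    · exact h3 d d' ((primary_iff d).2 hd) ((primary_iff d').2 hd') he ((main d d' hD he).2 k1)
        ((main d' d hD (by rw [he, mul_comm])).2 k2)
  · intro h
    have h2 := h.cl.2
    rw [Finset.mem_insert, Finset.mem_singleton] at h2
    refine ⟨(sp_iff D).2 h.cl.ps, by rw [← h0]; omega, fun d d' hd hd' he k1 k2 => ?_⟩
    exact h.ker d d' ((primary_iff d).1 hd) ((primary_iff d').1 hd') he ((main d d' h.cl.ps he).1 k1)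
      ((main d' d h.cl.ps (by rw [he, mul_comm])).1 k2)

theorem good_iff (g : GaussianInt) : Good g ↔ Run7.h26.QI.GoodG g := by
  unfold Good Run7.h26.QI.GoodG
  refine or_congr ?_ ?_
  · exact exists_congr fun D => and_congr_right fun _ => one_iff D
  · refine exists_congr fun c => exists_congr fun D => ?_
    rw [twistor_iff]
    exact and_congr_right fun hc => and_congr_right fun _ => crit_iff ((twistor_iff c).2 hc)

theorem rank_of_card {K : Type} [Field K] [NumberField K] [DecidableEq K] {e : GaussianInt ≃+* 𝓞 K}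
    {g : GaussianInt} (hc : Nat.card (twist e g).toAffine.Point = 4) :
    Module.Finite ℤ (twist e g).toAffine.Point ∧ Module.finrank ℤ (twist e g).toAffine.Point = 0 := by
  have hfin : Finite (twist e g).toAffine.Point := by
    apply Nat.finite_of_card_ne_zero
    rw [hc]
    norm_num
  refine ⟨?_, ?_⟩
  · infer_instance
  · exact Module.finrank_eq_zero_of_rank_eq_zero (rank_eq_zero_iff.2 (by
      intro x
      refine ⟨(Nat.card (twist e g).toAffine.Point : ℤ), by rw [hc]; norm_num, ?_⟩
      rw [natCast_zsmul, card_nsmul_eq_zero']))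

/-- the class of norm `5` modulo `8` (helper699) -/
theorem proved_one {D : GaussianInt} (h : Pool.Agent.H691.GZ.GoodE {5, 13} D) : Proved D := by
  intro K _ _ _ e
  have hg : Pool.Agent.Y699.Good D := ⟨h.cl.ps, ((one_iff D).2 h).2.1, h.ker⟩
  have hc : Nat.card (twist e D).toAffine.Point = 4 := by
    have h0 : algebraMap (𝓞 K) K (e D) ≠ 0 := by
      rw [Ne, map_eq_zero_iff _ (IsFractionRing.injective (𝓞 K) K), map_eq_zero_iff _ e.injective]
      exact hg.ps.ne
    exact Pool.Agent.Y699.card_pts h0 two_ne_zero (fun x y h => Pool.Agent.Y699.crit_pts hg e h)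
  obtain ⟨L, hL1, hL2, hL3⟩ := Pool.Agent.Y699.crit_L hg e
  obtain ⟨r1, r2⟩ := rank_of_card hc
  refine ⟨⟨⟨fun _ => Pool.Agent.Y699.crv (e D), fun v => Pool.Agent.Y699.crv_min e hg.ps v⟩,
    ⟨L, hL1, fun W hW s hs => ?_, ?_⟩, r1, r2⟩, hc⟩
  · exact hL3 W hW s hs
  · exact (hL1.analyticAt 1).analyticOrderAt_eq_zero.2 hL2

/-- the three new classes -/
theorem proved_twistor {c D : GaussianInt} (hc3 : Run7.h26.QI.cc3 c) (h : Run7.h26.QI.GoodC c D) :
    Proved (c * D) := by
  intro K _ _ _ e
  have hne : c * D ≠ 0 := mul_ne_zero (Run7.h26.QI.cc3_ne hc3) h.ps.ne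
  have hc : Nat.card (twist e (c * D)).toAffine.Point = 4 := by
    have h0 : algebraMap (𝓞 K) K (e (c * D)) ≠ 0 := by
      rw [Ne, map_eq_zero_iff _ (IsFractionRing.injective (𝓞 K) K), map_eq_zero_iff _ e.injective]
      exact hne
    exact Pool.Agent.Y699.card_pts h0 two_ne_zero (fun x y k => Run7.h26.QI.crit_pts' hc3 h e k)
  obtain ⟨L, hL1, hL2, hL3⟩ := Run7.h26.QI.crit_L' hc3 h e
  obtain ⟨r1, r2⟩ := rank_of_card hc
  refine ⟨⟨⟨fun _ => Pool.Agent.Y699.crv (e (c * D)), fun v => Run7.h26.QI.crv_min' e hne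
    (Run7.h26.QI.noup_cD hc3 h.ps) (Run7.h26.QI.sq_cD hc3 h.ps) v⟩,
    ⟨L, hL1, fun W hW s hs => ?_, ?_⟩, r1, r2⟩, hc⟩
  · exact hL3 W hW s hs
  · exact (hL1.analyticAt 1).analyticOrderAt_eq_zero.2 hL2

theorem proved_neg {g : GaussianInt} (h : Proved g) : Proved (-g) := by
  intro K _ _ _ e
  have h1 : twist e (-g) = twist e g := by
    unfold twist
    rw [map_neg, map_neg, neg_sq]
  rw [h1]
  exact h K e

theorem proved_good {g : GaussianInt} (h : Run7.h26.QI.GoodG g) : Proved g := by
  rcases h with ⟨D, h1, h2⟩ | ⟨c, D, hc, h1, h2⟩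
  · rcases h1 with h1 | h1 <;> rw [h1]
    · exact proved_one h2
    · exact proved_neg (proved_one h2)
  · rcases h1 with h1 | h1 <;> rw [h1]
    · exact proved_twistor hc h2
    · exact proved_neg (proved_twistor hc h2)

/-- **Main theorem.** `K = ℚ(i)`, `E_g : y² = x³ - g² x`, `κ = ∏_{i ≥ 0} (1 - 2^{-(2i+1)})`.
(1) `0.4194 < κ < 0.4195`.
(2) For `c = i`, `1 + i` and `i (1 + i)`, exactly the proportion `κ` of ALL squarefree `D ≡ 1 mod 2 + 2i`,
ordered by norm, satisfies the criterion for `c D`.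
(3) If `g` is in the explicit set `Good`, then `E_g(K)` has exactly four elements and the rank part of the
conjecture of Birch and Swinnerton-Dyer holds for `E_g / K` with order and rank zero.
(4) `Good` contains exactly the proportion `κ` of the squarefree `g` whose imaginary part is not divisible
by `4`, and exactly the proportion `(5/6) κ` of all squarefree `g`, ordered by norm.
(5) So for large `X` at least 34.95 percent of all squarefree `g` of norm at most `X` (that is, of ALL
quadratic twists of `y² = x³ - x` over `ℚ(i)`, each counted twice, for `g` and `-g`) have the property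
in (3). -/
theorem result :
    (0.4194 < κ ∧ κ < 0.4195) ∧
    (∀ c : GaussianInt, IsTwistor c → Filter.Tendsto
      (fun X : ℕ => (num (fun D => SquarefreePrimary D ∧ Criterion c D) X : ℝ) / num SquarefreePrimary X)
      Filter.atTop (nhds κ)) ∧
    (∀ g : GaussianInt, Good g → Squarefree g ∧ ¬ (4 : ℤ) ∣ g.im ∧ Proved g) ∧
    Filter.Tendsto
      (fun X : ℕ => (num Good X : ℝ) / num (fun g => Squarefree g ∧ ¬ (4 : ℤ) ∣ g.im) X)
      Filter.atTop (nhds κ) ∧
    Filter.Tendsto (fun X : ℕ => (num Good X : ℝ) / num Squarefree X) Filter.atTop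
      (nhds (5 / 6 * κ)) ∧
    (∃ X₀ : ℕ, ∀ X : ℕ, X₀ ≤ X →
      (0.3495 : ℝ) * num Squarefree X ≤ num (fun g => Squarefree g ∧ Proved g) X) := by
  have hc : κ = Pool.Agent.Y703.CQ.c2 := rfl
  have hc2 := Pool.Agent.Y948.CQ.t_C2
  have hk1 : 0.4194 < κ := hc2.2.2.2.1
  have hgood : ∀ X : ℕ, num Good X = Run7.h26.QI.nQ Run7.h26.QI.GoodG X := fun X => by
    rw [num_congr good_iff, num_eq]
  have h5 : Filter.Tendsto (fun X : ℕ => (num Good X : ℝ) / num Squarefree X) Filter.atTop
      (nhds (5 / 6 * κ)) := by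
    rw [hc]
    refine Run7.h26.QI.share_all.congr fun X => ?_
    rw [hgood, num_eq]
  refine ⟨⟨hk1, hc2.2.2.2.2⟩, ?_, ?_, ?_, h5, ?_⟩
  · intro c hc'
    rw [hc]
    refine (Run7.h26.QI.dens_C ((twistor_iff c).1 hc')).congr fun X => ?_
    rw [num_congr (fun D => crit_iff hc'), num_congr sp_iff, num_eq, num_eq]
    rfl
  · intro g hg
    have h1 := (good_iff g).1 hg
    exact ⟨h1.sqf, Run7.h26.QI.GoodG.im4 h1, proved_good h1⟩
  · rw [hc]
    refine Run7.h26.QI.share_cov.congr fun X => ?_
    rw [hgood, num_eq]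
    rfl
  · have h6 : (0.3495 : ℝ) < 5 / 6 * κ := by
      norm_num at hk1 ⊢
      linarith
    obtain ⟨X₀, hX₀⟩ := Filter.eventually_atTop.1 ((tendsto_order.1 h5).1 0.3495 h6)
    refine ⟨X₀, fun X hX => ?_⟩
    have h7 := hX₀ X hX
    have h8 : (num Good X : ℝ) ≤ num (fun g => Squarefree g ∧ Proved g) X := by
      have : num Good X ≤ num (fun g => Squarefree g ∧ Proved g) X :=
        num_mono (fun g hg => ⟨((good_iff g).1 hg).sqf, proved_good ((good_iff g).1 hg)⟩) X
      exact_mod_cast this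
    by_cases h9 : (num Squarefree X : ℝ) = 0
    · rw [h9, mul_zero]
      exact Nat.cast_nonneg _
    · have h10 : (0 : ℝ) < num Squarefree X := lt_of_le_of_ne (Nat.cast_nonneg _) (Ne.symm h9)
      rw [lt_div_iff₀ h10] at h7
      linarith

end Pool.Agent.Results.MP_cd906c_nt.GaussianTwistsFiveSixths
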