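import Mathlib
import Pool.Agent.Run7.h707.TE.FinL

/-!
# The rank conjecture over the fields `K(∛b_1, …, ∛b_r)`, `K = ℚ(√-3)`, for an exact positive proportion
# of all pairs (curve, field)

`K` is the field of the third roots of unity.  For every `r ≥ 1` let `(a; b_1, …, b_r)` run through ALL the
tuples of cube-free elements of `𝓞 K` that are congruent to third roots of unity modulo `3` (every
element prime to `3` is such an element times a cube, units included), ordered by the maximum of the
norms.  Let `F_b = K(∛b_1, …, ∛b_r)` and `E_a : y² + a y = x³`, a curve over `K` considered over `F_b`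
(so `E_a` runs through all the cubic twists of `y² + y = x³` with `a` prime to `3`).  A tuple belongs to the
family if none of the elements `a b^ν = a ∏ b_i^{ν_i}`, `ν ∈ (ℤ/3)^r`, is exceptional (a unit times a cube,
or `1` modulo `3` with a norm that is `1` modulo `9`) and no `b^ν`, `ν ≠ 0`, is a unit times a cube.

* The family has exactly the density `(24·3^r - 16) / 9^(r+1)` among ALL the tuples (`56/81` for
  `r = 1`).
* For all the tuples of the family `[F_b : K] = 3^r` and `L(E_a / F_b, s)` has an entire continuation.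
* The tuples of the family such that all the groups `E_{a b^ν}(K)` are finite and all the groups
  `Ш(E_{a b^ν} / K)[3^∞]` trivial have, among ALL the tuples, exactly the density
  `(24·3^r - 16) / 9^(r+1) · c₉^(3^r)`, where `c₉ = ∏_{i ≥ 0} (1 - 3^{-(2 i + 1)}) > 0.639`, as if the `3^r`
  curves were independent; more than `0.18` for `r = 1`.
* For all of these tuples the rank part of the conjecture holds for `E_a` over `F_b`:
  `L(E_a / F_b, 1) ≠ 0` and `E_a(F_b)` is finite, so that the order of vanishing and the rank are both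
  zero; moreover `Ш(E_a / F_b)[3^∞]` is killed by `3^r`.

`L(E_a / F_b, s)` is Mathlib's `L`-series of a Weierstrass curve over a number field, with the Euler
factors of the minimal models at all the places of `F_b`.  Nothing is assumed on the ramification of
`F_b / K` at `3` or at the primes dividing `a`.

Proof: see the headers of the files `Pool/Agent/Run7/h707/{TC,TD,TE}/*.lean`.  `TD`: the joint law of the
`3`-Selmer groups of the twists by an arbitrary system of monomials in several independent parameters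
(large sieve for the cubic symbol, cubic reciprocity, weighted Laplacians of one random graph); `TE`:
Kummer theory of the tower, the splitting of all the places in a cubic Kummer step, the minimal models
of `E_a` at the places of `F_b` (at the places above `3` the valuation of the discriminant is never
divisible by `12`, because the ramification indices are powers of `3`), hence the Euler product of
`E_a` over `F_b` is the product of the Euler products of the `E_{a b^ν}` over `K`.  The criterion for the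
nonvanishing of `L(E_δ / K, 1)`, the descent of the points and of `Ш` and the large sieve are the joint
work of the seats named in the headers of the imported files.
-/

set_option autoImplicit false

namespace Pool.Agent.Results.MP_cd906c_nt.RadicalExtensionsAllTwists

open NumberField WeierstrassCurve
open Pool.Agent.TH841.NF.D (Sha)
open scoped Classical

/-- The curve `E_δ : y² + δ y = x³`. -/
def curve {F : Type} [Field F] (δ : F) : WeierstrassCurve F := ⟨0, 0, δ, 0, 0⟩

variable {K : Type} [Field K] [NumberField K]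

/-- `b^ν = ∏ b i ^ ν i`, the exponents in `{0, 1, 2}`. -/
noncomputable def power {r : ℕ} (b : Fin r → 𝓞 K) (ν : Fin r → ZMod 3) : 𝓞 K :=
  ∏ i, b i ^ (ν i).val

/-- `F` is generated over `K` by the cube roots `θ i` of the elements `b i`. -/
def IsRadical {r : ℕ} (b : Fin r → 𝓞 K) (F : Type) [Field F] [Algebra K F] (θ : Fin r → F) : Prop :=
  (∀ i, θ i ^ 3 = algebraMap K F (b i)) ∧
    ∀ S : Subfield F, (∀ x : K, algebraMap K F x ∈ S) → (∀ i, θ i ∈ S) → S = ⊤

/-- `a` is cube-free and congruent to a third root of unity modulo `3`. -/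
def Admissible (a : 𝓞 K) : Prop :=
  (∀ x : 𝓞 K, x ^ 3 ∣ a → IsUnit x) ∧ ∃ ω : 𝓞 K, ω ^ 3 = 1 ∧ (3 : 𝓞 K) ∣ a - ω

/-- `δ` is a unit times a cube. -/
def UnitTimesCube (δ : 𝓞 K) : Prop := ∃ u x : 𝓞 K, IsUnit u ∧ δ = u * x ^ 3

/-- `δ` is a unit times a cube, or `1` modulo `3` with a norm that is `1` modulo `9`. -/
def Exceptional (δ : 𝓞 K) : Prop :=
  (∃ u x : 𝓞 K, IsUnit u ∧ δ = u * x ^ 3) ∨
    ((3 : 𝓞 K) ∣ δ - 1 ∧ (9 : ℤ) ∣ Algebra.norm ℤ δ - 1)

/-- The tuples `(a; b_1, …, b_r)`. -/
abbrev Tuples (K : Type) [Field K] (r : ℕ) : Type := 𝓞 K × (Fin r → 𝓞 K)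

/-- All the tuples of norm at most `X`. -/
def Tuple {r : ℕ} (X : ℕ) (p : Tuples K r) : Prop :=
  (Algebra.norm ℤ p.1 ≤ X ∧ Admissible p.1) ∧ ∀ i, Algebra.norm ℤ (p.2 i) ≤ X ∧ Admissible (p.2 i)

/-- No `a b^ν` is exceptional and no `b^ν`, `ν ≠ 0`, is a unit times a cube. -/
def InFamily {r : ℕ} (p : Tuples K r) : Prop :=
  (∀ ν : Fin r → ZMod 3, ¬ Exceptional (p.1 * power p.2 ν)) ∧
    ∀ ν : Fin r → ZMod 3, ν ≠ 0 → ¬ UnitTimesCube (power p.2 ν)

/-- `E_δ(K)` is finite and the `3`-primary part of `Ш(E_δ / K)` is trivial. -/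
def FiniteAndTrivial (δ : 𝓞 K) : Prop :=
  Finite (curve (δ : K)).toAffine.Point ∧ ∀ (n : ℕ) (x : Sha (curve (δ : K))), 3 ^ n • x = 0 → x = 0

/-- All the `E_{a b^ν}(K)` are finite and all the `Ш(E_{a b^ν} / K)[3^∞]` are trivial. -/
def AllTrivial {r : ℕ} (p : Tuples K r) : Prop :=
  ∀ ν : Fin r → ZMod 3, FiniteAndTrivial (p.1 * power p.2 ν)

/-- The number of the tuples of norm at most `X` with the property `P`. -/
noncomputable def number {r : ℕ} (X : ℕ) (P : Tuples K r → Prop) : ℝ :=
  ({p : Tuples K r | Tuple X p ∧ P p}.ncard : ℝ)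

/-- The property `P` has the density `d` among all the tuples. -/
def HasDensity {r : ℕ} (P : Tuples K r → Prop) (d : ℝ) : Prop :=
  Filter.Tendsto (fun X : ℕ => number X P / number X (fun _ : Tuples K r => True)) Filter.atTop
    (nhds d)

/-- `Λ` is entire and equal to `L(E_a / F, s)` for `Re s > 3 / 2`. -/
def Continues (F : Type) [Field F] [NumberField F] [Algebra K F] (a : 𝓞 K) (Λ : ℂ → ℂ) : Prop :=
  Differentiable ℂ Λ ∧ ∀ s : ℂ, 3 / 2 < s.re → Λ s = (curve (algebraMap K F a)).LSeries s

/-- The order of vanishing of `Λ` at `1` is the rank of `E_a(F)`; moreover both are zero: `Λ 1 ≠ 0` and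
`E_a(F)` is finite. -/
def RankFormula (F : Type) [Field F] [NumberField F] [Algebra K F] (a : 𝓞 K) (Λ : ℂ → ℂ) : Prop :=
  analyticOrderAt Λ 1 = (Module.finrank ℤ (curve (algebraMap K F a)).toAffine.Point : ℕ∞) ∧
    Λ 1 ≠ 0 ∧ Finite (curve (algebraMap K F a)).toAffine.Point

/-- The `3`-primary part of `Ш(E_a / F)` is killed by `3^r`. -/
def ShaKilled (F : Type) [Field F] [NumberField F] [Algebra K F] (r : ℕ) (a : 𝓞 K) : Prop :=
  ∀ (n : ℕ) (x : Sha (curve (algebraMap K F a))), 3 ^ n • x = 0 → 3 ^ r • x = 0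

/-- **Main theorem.** -/
theorem result (K : Type) [Field K] [NumberField K] [IsCyclotomicExtension {3} ℚ K] (r : ℕ)
    (_ : 1 ≤ r) :
    (0.639 : ℝ) < ∏' i : ℕ, (1 - (1 / 3 : ℝ) ^ (2 * i + 1)) ∧
    (∃ C : ℝ, 0 < C ∧ ∃ X₀ : ℕ, ∀ X : ℕ, X₀ ≤ X →
      C * (X : ℝ) ^ (r + 1) ≤ number X (fun _ : Tuples K r => True)) ∧
    HasDensity (fun p : Tuples K r => InFamily p) ((24 * 3 ^ r - 16) / 9 ^ (r + 1)) ∧
    HasDensity (fun p : Tuples K r => InFamily p ∧ AllTrivial p)
      ((24 * 3 ^ r - 16) / 9 ^ (r + 1) *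
        (∏' i : ℕ, (1 - (1 / 3 : ℝ) ^ (2 * i + 1))) ^ 3 ^ r) ∧
    ∀ p : Tuples K r, Admissible p.1 → (∀ i, Admissible (p.2 i)) → InFamily p →
      (∃ (F : Type) (_ : Field F) (_ : NumberField F) (_ : Algebra K F) (θ : Fin r → F),
        IsRadical p.2 F θ) ∧
      ∀ (F : Type) [Field F] [NumberField F] [Algebra K F] (θ : Fin r → F), IsRadical p.2 F θ →
        Module.finrank K F = 3 ^ r ∧
        ∃ Λ : ℂ → ℂ, Continues F p.1 Λ ∧
          (AllTrivial p → RankFormula F p.1 Λ ∧ ShaKilled F r p.1) := by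
  obtain ⟨h1, h2, h3, h4⟩ := Run7.h707.TE.finL K r
  have e : ∀ X : ℕ, number X (fun _ : Tuples K r => True) =
      ({p : Tuples K r | Tuple X p}.ncard : ℝ) := fun X => by
    unfold number
    simp only [and_true]
  refine ⟨Pool.Agent.XLK.t_C9.2.2.2.1, ?_, ?_, ?_,
    fun p hA hB hF => ⟨Run7.h707.TE.ex_F (fun i => (p.2 i : K)), fun F _ _ _ θ hθ => ?_⟩⟩
  · simp only [e]
    exact h1
  · unfold HasDensity
    simp only [e]
    exact h2
  · unfold HasDensity
    simp only [e]
    exact h3
  · obtain ⟨hd, Λ, h5, h6, h7⟩ := h4 p hA hB hF F θ hθ.1 hθ.2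
    refine ⟨hd, Λ, ⟨h5, h6⟩, fun hT => ?_⟩
    obtain ⟨h8, h9, h10⟩ := h7 hT
    refine ⟨⟨?_, h8, h9⟩, h10⟩
    have h11 : analyticOrderAt Λ 1 = 0 := analyticOrderAt_eq_zero.2 (Or.inr h8)
    have h12 : Module.finrank ℤ (curve (algebraMap K F p.1)).toAffine.Point = 0 := by
      have hfin : Finite (curve (algebraMap K F p.1)).toAffine.Point := h9
      apply Module.finrank_eq_zero_of_rank_eq_zero
      rw [rank_eq_zero_iff]
      intro x
      refine ⟨(Nat.card (curve (algebraMap K F p.1)).toAffine.Point : ℤ), ?_, ?_⟩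
      · have : 0 < Nat.card (curve (algebraMap K F p.1)).toAffine.Point := Nat.card_pos
        exact_mod_cast this.ne'
      · rw [natCast_zsmul]
        exact card_nsmul_eq_zero'
    rw [h11, h12]
    rfl

end Pool.Agent.Results.MP_cd906c_nt.RadicalExtensionsAllTwists
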