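import Pool.Agent.Run7.h428.X15.Inf
import Pool.Agent.Run7.h428.X15.Tor2

/-!
# Infinite multiquadratic extensions with radicands in a given dense set, over which order and rank of the
# twists of `X_0(15)` do not grow

`E_n : y² = x (x + 9 n) (x + 25 n)` is the quadratic twist by `-n` of
`X_0(15) : y² = x (x - 9) (x - 25)`, a curve without complex multiplication. The class consists of the
squarefree `n` congruent to `23` or `47` modulo `60`. Let `A` be ANY set of numbers of the class with
positive upper density (in the natural numbers), and `b₀` any number of the class. Then there is a sequence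
`d_0 < d_1 < d_2 < ...` of elements of `A` such that
* the field generated by the `√(d_i d_k)` with `i, k ≤ n` has degree `2 ^ n`;
* for every number field `F` inside the infinite field `K = ℚ(√(d_i d_k) : i, k ≥ 0)` the order of
  vanishing of `L(E_{b₀}/F, s)` at `s = 1` and the rank of `E_{b₀}(F)` are the same as over `ℚ`,
  whatever they are; so the rank conjecture for `E_{b₀}` over `F` is equivalent to that over `ℚ`;
* over the infinite field itself `E_{b₀}(K)` is finitely generated, of the same rank as `E_{b₀}(ℚ)`, its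
  torsion subgroup has order four, and `2 E_{b₀}(K) ⊆ E_{b₀}(ℚ)`;
* the same sequence works for ALL the curves of the class simultaneously, if finitely many `d_i`
  are omitted: for every `b` of the class there is `j` such that all this holds for `E_b` and the field
  `K_j = ℚ(√(d_i d_k) : i, k ≥ j)`;
* if `E_b(ℚ)` is finite and `Ш(E_b/ℚ)[2^∞] = 0` (this is so for exactly the proportion `0.2888...` of the
  `b`), then over all these `F` order and rank are zero, and `E_b(K_j)` has exactly four elements;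
* if this is so for all `b ∈ A`, then order and rank over `F` are zero and `E_{d_k}(F)` has exactly four
  elements, for all `k` and all number fields `F` in `K`.

`A` is arbitrary, for example the `n` whose curve does not satisfy the condition, or the `n` whose
number of prime factors is even, or a union of sparse long intervals.

The proof: the joint law of the conditions for finitely many multipliers (`Run7/h238/J`, `Run7/h843/J`,
`Run7/h209/J`, `Run7/h89/J`, `Run7/h424/J`, `Run7/h289/J`) shows that for infinitely many multipliers the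
conditions are asymptotically pairwise independent, so all but finitely many of them are nearly
independent of `A` (second moment, `Run7/h428/MixG`, `OddG`); so `d_n ∈ A` can be chosen such that
finitely many given conditions hold for a subset of positive upper density of `A`, in which the later
elements are chosen (`Run7/h428/OddM`). The passage to `F` is as in `MP_ae0bd0_nt`
(`Run7/h428/NF`, `Run7/h428/X15`), with Kummer theory for the number fields in `K`.
-/

set_option autoImplicit false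

open NumberField WeierstrassCurve Filter Topology

namespace Pool.Agent.Results.MP_cd906c_nt.StableTowersX15

open Pool.Agent.TH841.NF.D (Sha)

/-- the class -/
def Class (n : ℕ) : Prop := Squarefree n ∧ (n % 60 = 23 ∨ n % 60 = 47)

/-- the curve `E_n : y² = x (x + 9 n) (x + 25 n)` over `ℚ` -/
def E (n : ℕ) : WeierstrassCurve ℚ :=
  { a₁ := 0, a₂ := 34 * n, a₃ := 0, a₄ := 225 * (n : ℚ) ^ 2, a₆ := 0 }

/-- the global minimal equation of `E_n` (the divisions are exact for `n ≡ 3 mod 4`):
`y² + x y + y = x³ + ((5 D - 1) / 4) x² - ((19 D² + 1) / 2) x - (39 D³ + 1) / 4` with `D = -n` -/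
def Emin (n : ℕ) : WeierstrassCurve ℤ :=
  ⟨1, (5 * (-(n : ℤ)) - 1) / 4, 1, -((19 * (-(n : ℤ)) ^ 2 + 1) / 2),
    -((39 * (-(n : ℤ)) ^ 3 + 1) / 4)⟩

/-- `E_n` over the field `F` -/
noncomputable abbrev EF (F : Type) [Field F] (n : ℕ) : WeierstrassCurve F :=
  (Emin n).map (Int.castRingHom F)

/-- `E_n(ℚ)` is finite and `Ш(E_n/ℚ)[2^∞] = 0` -/
def TrivialTwo (n : ℕ) : Prop :=
  Finite (E n).toAffine.Point ∧ ∀ k : ℕ, ∀ x : Sha (E n), 2 ^ k • x = 0 → x = 0

open Classical in
/-- The rank conjecture for `E_n` over the number field `F`, with order and rank zero: `L(E_n/F, s)` has an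
entire continuation `Λ` with `ord_{s=1} Λ = rank E_n(F)`, `Λ(1) ≠ 0` and `E_n(F)` has exactly four elements. -/
def RankFormula (F : Type) [Field F] [NumberField F] (n : ℕ) : Prop :=
  ∃ Λ : ℂ → ℂ, Differentiable ℂ Λ ∧ (∀ s : ℂ, 2 < s.re → Λ s = (EF F n).LSeries s) ∧
    analyticOrderAt Λ 1 = (Module.finrank ℤ (EF F n).toAffine.Point : ℕ∞) ∧
    Λ 1 ≠ 0 ∧ Nat.card (EF F n).toAffine.Point = 4

open Classical in
/-- `E_n(M)` is finitely generated, its rank is that of `E_n(ℚ)`, its torsion subgroup has order four, and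
twice any point of it is rational. -/
def SamePoints (M : Type) [Field M] (n : ℕ) : Prop :=
  Module.Finite ℤ (EF M n).toAffine.Point ∧
  Module.rank ℤ (EF M n).toAffine.Point = Module.rank ℤ (EF ℚ n).toAffine.Point ∧
  Nat.card (AddCommGroup.torsion (EF M n).toAffine.Point) = 4 ∧
  ∀ P : (EF M n).toAffine.Point, P + P = 0 ∨
    ∃ (x y : ℚ) (h : (EF M n).toAffine.Nonsingular (x : M) (y : M)),
      P + P = Affine.Point.some (x : M) (y : M) h

/-- `L(E_n/F, s)` and `L(E_n/ℚ, s)` have entire continuations with the same order of vanishing at `s = 1`,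
and the groups `E_n(F)` and `E_n(ℚ)` are the same up to points killed by two modulo `E_n(ℚ)`, in particular
of the same rank. -/
def Stable (F : Type) [Field F] [NumberField F] (n : ℕ) : Prop :=
  (∃ Λ Λ₀ : ℂ → ℂ, Differentiable ℂ Λ ∧ Differentiable ℂ Λ₀ ∧
    (∀ s : ℂ, 2 < s.re → Λ s = (EF F n).LSeries s) ∧
    (∀ s : ℂ, 2 < s.re → Λ₀ s = (EF ℚ n).LSeries s) ∧
    analyticOrderAt Λ 1 = analyticOrderAt Λ₀ 1) ∧
  SamePoints F n

open Classical in
/-- `A` has positive upper density in the natural numbers. -/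
def PositiveUpperDensity (A : Set ℕ) : Prop :=
  ∃ δ : ℝ, 0 < δ ∧ ∃ᶠ X : ℕ in atTop,
    δ * (X : ℝ) ≤ (((Finset.Icc 1 X).filter fun n => n ∈ A).card : ℝ)

/-- the field generated by the square roots of the products `d i * d k` with `i, k ≥ j` -/
noncomputable def pairField (d : ℕ → ℕ) (j : ℕ) : IntermediateField ℚ ℂ :=
  IntermediateField.adjoin ℚ {z : ℂ | ∃ i k : ℕ, j ≤ i ∧ j ≤ k ∧ z ^ 2 = (d i : ℂ) * (d k : ℂ)}

/-- the field generated by the square roots of the products `d i * d k` with `i, k ≤ n` -/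
noncomputable def level (d : ℕ → ℕ) (n : ℕ) : IntermediateField ℚ ℂ :=
  IntermediateField.adjoin ℚ {z : ℂ | ∃ i k : ℕ, i ≤ n ∧ k ≤ n ∧ z ^ 2 = (d i : ℂ) * (d k : ℂ)}

/-- Over every number field in `M` order and rank of `E_n` are the same as over `ℚ`, and `E_n(M)` is finitely
generated, of the rank of `E_n(ℚ)`, with torsion subgroup of order four and `2 E_n(M) ⊆ E_n(ℚ)`; if `E_n(ℚ)`
is finite and `Ш(E_n/ℚ)[2^∞] = 0`, then orders and ranks are zero, and `E_n(M)` has exactly four elements. -/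
def StableBelow (M : IntermediateField ℚ ℂ) (n : ℕ) : Prop :=
  (∀ (F : IntermediateField ℚ ℂ) [NumberField F], F ≤ M → Stable F n) ∧ SamePoints M n ∧
  (TrivialTwo n → (∀ (F : IntermediateField ℚ ℂ) [NumberField F], F ≤ M → RankFormula F n) ∧
    Nat.card (EF M n).toAffine.Point = 4)

section proof

open Run7.h428.X15 Run7.h428.Kum Run7.h428.NF Run7.h428.MixG Run7.h428.OddG Run7.h428.OddM
open Run7.h428.Uni (W mem_W W_empty W_congr W_insert symm_cancel)
open Pool.Agent.N969.P15 (Cls0 Qc)
open scoped symmDiff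

theorem triv_iff {n : ℕ} (h : Class n) : TrivialTwo n ↔ Qc n := by
  have h60 : n % 60 = 23 ∨ n % 60 = 47 := h.2
  have hW : E n = ⟨0, ((34 * n : ℤ) : ℚ), 0, ((225 * n ^ 2 : ℤ) : ℚ), 0⟩ := by
    unfold E
    push_cast
    rfl
  exact Run7.h424.DC.iffF h.1 h60 hW

theorem fr_zero (F : Type) [Field F] [DecidableEq F] (W : WeierstrassCurve F)
    (h : Finite W.toAffine.Point) : Module.finrank ℤ W.toAffine.Point = 0 := by
  apply Module.finrank_eq_zero_of_rank_eq_zero
  rw [rank_eq_zero_iff]
  intro x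
  refine ⟨(Nat.card W.toAffine.Point : ℤ), ?_, ?_⟩
  · have : 0 < Nat.card W.toAffine.Point := Nat.card_pos
    exact_mod_cast this.ne'
  · rw [natCast_zsmul]
    exact card_nsmul_eq_zero'

theorem pts {S : Set ℕ} (hS : ∀ m ∈ S, Mu m) {n : ℕ} (hn : Class n) (hg : AlS (fld S) n) :
    SamePoints (fld S) n :=
  ⟨fg_EF hS hn hg _, rank_EF hS hn hg _ _, tors_EF hS hn _, @dbl_EF S n hS hn hg (fun a b => Classical.propDecidable (a = b))⟩

variable {d : ℕ → ℕ} {I : Set ℕ}

theorem stable_of (hd : ∀ i, Cl (d i)) {n : ℕ} (hn : Class n) (hg : AlS (pf d I) n)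
    (F : IntermediateField ℚ ℂ) [NumberField F] (hF : F ≤ pf d I) : Stable F n := by
  obtain ⟨S₁, hS₁, hFS⟩ := sub_pf hd F hF
  subst hFS
  have hg' : AlS (fld (S₁ : Set ℕ)) n := fun m hm hm1 hz => hg m hm hm1 (by
    obtain ⟨z, hz1, hz2⟩ := hz
    exact ⟨z, hF hz1, hz2⟩)
  obtain ⟨⟨Λ, h1, h2, h3⟩, h4⟩ := stable_S hS₁ hn hg'
  exact ⟨⟨Λ, Lq n, h1, Lq_diff n, h2, fun s hs => lserQ hn hs, h3⟩,
    pts (S := (S₁ : Set ℕ)) (fun m hm => hS₁ m hm) hn hg'⟩

theorem formula_of (hd : ∀ i, Cl (d i)) {n : ℕ} (hn : Class n) (hq : Qc n)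
    (hg : AlS (pf d I) n) (F : IntermediateField ℚ ℂ) [NumberField F] (hF : F ≤ pf d I) :
    RankFormula F n := by
  obtain ⟨S₁, hS₁, hFS⟩ := sub_pf hd F hF
  subst hFS
  have hg' : AlS (fld (S₁ : Set ℕ)) n := fun m hm hm1 hz => hg m hm hm1 (by
    obtain ⟨z, hz1, hz2⟩ := hz
    exact ⟨z, hF hz1, hz2⟩)
  obtain ⟨⟨Λ, h1, h2, h3⟩, h4⟩ := zero_S hS₁ hn (gd_al.2 ⟨hq, hg'⟩)
  refine ⟨Λ, h1, h2, ?_, h3, card_EF (S := (S₁ : Set ℕ)) (fun m hm => hS₁ m hm) hn
    (gd_al.2 ⟨hq, hg'⟩)⟩
  have h5 := @fr_zero (fld (S₁ : Set ℕ)) _ (fun a b => Classical.propDecidable (a = b))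
    (EF (fld (S₁ : Set ℕ)) n) h4
  rw [analyticOrderAt_eq_zero.2 (Or.inr h3), h5]
  rfl

theorem pf_mu (hd : ∀ i, Cl (d i)) : ∃ S : Set ℕ, (∀ m ∈ S, Mu m) ∧ pf d I = fld S := by
  refine ⟨rad (pf d I), fun _ hm => hm.1, le_antisymm (pf_le hd) ?_⟩
  unfold fld
  rw [IntermediateField.adjoin_le_iff]
  rintro z ⟨m, ⟨-, w, hw, hwm⟩, hz⟩
  rw [← hwm] at hz
  rcases sq_eq_sq_iff_eq_or_eq_neg.1 hz with h | h
  · rw [h]
    exact hw
  · rw [h]
    exact neg_mem hw

theorem below_of (hd : ∀ i, Cl (d i)) {n : ℕ} (hn : Class n) (hg : AlS (pf d I) n) :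
    StableBelow (pf d I) n := by
  have hM : ∃ S : Set ℕ, (∀ m ∈ S, Mu m) ∧ pf d I = fld S := pf_mu hd
  refine ⟨fun F _ hF => stable_of hd hn hg F hF, ?_, fun ht => ⟨fun F _ hF =>
    formula_of hd hn ((triv_iff hn).1 ht) hg F hF, ?_⟩⟩
  · obtain ⟨S, hS, hSd⟩ := hM
    rw [hSd] at hg ⊢
    exact pts hS hn hg
  · obtain ⟨S, hS, hSd⟩ := hM
    rw [hSd] at hg ⊢
    exact card_EF hS hn (gd_al.2 ⟨(triv_iff hn).1 ht, hg⟩)

theorem pair_eq (d : ℕ → ℕ) (j : ℕ) : pairField d j = pf d {i | j ≤ i} := by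
  unfold pairField pf
  congr 1
  ext z
  constructor
  · rintro ⟨i, k, hi, hk, hz⟩
    exact ⟨i, hi, k, hk, hz⟩
  · rintro ⟨i, hi, k, hk, hz⟩
    exact ⟨i, k, hi, hk, hz⟩

theorem level_eq (d : ℕ → ℕ) (n : ℕ) : level d n = pf d {i | i ≤ n} := by
  unfold level pf
  congr 1
  ext z
  constructor
  · rintro ⟨i, k, hi, hk, hz⟩
    exact ⟨i, hi, k, hk, hz⟩
  · rintro ⟨i, hi, k, hk, hz⟩
    exact ⟨i, k, hi, hk, hz⟩

theorem large_of {A : Set ℕ} (hA : ∀ n ∈ A, Class n) (hd : PositiveUpperDensity A) :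
    Large SX A := by
  obtain ⟨δ, h1, h2⟩ := hd
  refine ⟨δ, h1, fun ε hε => h2.mono fun X hX => ?_⟩
  have h3 : ((SX X).card : ℝ) ≤ X := by
    have h31 : (SX X).card ≤ (Finset.Icc 1 X).card :=
      Finset.card_le_card fun n hn => Finset.mem_Icc.2 (mem_SX.1 hn).1
    rw [Nat.card_Icc, Nat.add_sub_cancel] at h31
    exact_mod_cast h31
  have h4 : cn (SX X) A = ((@Finset.filter ℕ (fun n => n ∈ A)
      (fun a => Classical.propDecidable _) (Finset.Icc 1 X)).card : ℝ) := by
    unfold cn
    refine congrArg (fun S : Finset ℕ => (S.card : ℝ)) (Finset.ext fun n => ?_)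
    rw [mf, mf, mem_SX, Finset.mem_Icc]
    constructor
    · rintro ⟨⟨h5, h6⟩, h7⟩
      exact ⟨h5, h7⟩
    · rintro ⟨h5, h6⟩
      exact ⟨⟨h5, hA n h6⟩, h6⟩
  rw [h4]
  have h6 : (0 : ℝ) ≤ ((SX X).card : ℝ) := Nat.cast_nonneg _
  refine le_trans ?_ hX
  nlinarith

theorem main {A : Set ℕ} (hA : ∀ n ∈ A, Class n) (hd : PositiveUpperDensity A) {b₀ : ℕ}
    (hb : Class b₀) :
    ∃ d : ℕ → ℕ, StrictMono d ∧ (∀ i, d i ∈ A) ∧
      (∀ n, Module.finrank ℚ (level d n) = 2 ^ n) ∧
      StableBelow (pairField d 0) b₀ ∧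
      (∀ b, Class b → ∃ j, StableBelow (pairField d j) b) ∧
      ((∀ n ∈ A, TrivialTwo n) → ∀ k, ∀ (F : IntermediateField ℚ ℂ) [NumberField F],
        F ≤ pairField d 0 → RankFormula F (d k)) := by
  -- the base points
  have hct : ({b : ℕ | Class b} : Set ℕ).Countable := Set.to_countable _
  obtain ⟨f, hf⟩ := hct.exists_eq_range ⟨b₀, hb⟩
  have hfc : ∀ j, Class (f j) := by
    intro j
    have : f j ∈ {b : ℕ | Class b} := by rw [hf]; exact ⟨j, rfl⟩
    exact this
  set g : ℕ → ℕ := fun j => Nat.casesOn j b₀ f with hg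
  have hgc : ∀ j, Class (g j) := by
    intro j
    cases j with
    | zero => exact hb
    | succ j => exact hfc j
  obtain ⟨d, h1, h2, h3, h4, h5⟩ := multi isLaw (large_of hA hd) 0
    (bb := fun j => (g j).primeFactors) fun j => od_cl (hgc j)
  have hc : ∀ i, Cl (d i) := fun i => cl_ex.1 (h2 i).2
  have hbelow : ∀ j, StableBelow (pairField d j) (g j) := by
    intro j
    rw [pair_eq]
    exact below_of hc (hgc j) (al_pf hc (hgc j) fun T hTI hne he => h4 j T hne he hTI)
  refine ⟨d, strictMono_nat_of_lt_succ h1, fun i => (h2 i).1, fun n => ?_, hbelow 0,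
    fun b hb' => ?_, fun hAg k F _ hF => ?_⟩
  · rw [level_eq]
    exact deg_pf hc h3 n
  · have : b ∈ Set.range f := by rw [← hf]; exact hb'
    obtain ⟨j, rfl⟩ := this
    exact ⟨j + 1, hbelow (j + 1)⟩
  · rw [pair_eq] at hF
    have hq : ∀ i, Qc (d i) := fun i => (triv_iff (hc i)).1 (hAg (d i) (h2 i).1)
    refine formula_of hc (hc k) (hq k) ?_ F hF
    intro m hm hm1 hz
    obtain ⟨T, hTI, hT, hmT⟩ := sqrt_pf hc hm hz
    have ham := am_W hc hT
    have hne : T.Nonempty := by
      rw [Finset.nonempty_iff_ne_empty]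
      rintro rfl
      rw [W_empty, Finset.prod_empty] at hmT
      exact hm1 hmT
    have hW0 : ∀ T : Finset ℕ, Odd T.card → Qc (∏ p ∈ W (fun i => (d i).primeFactors) T, p) := by
      intro T hT
      have hod := (isLaw.adm_W (u := fun i => (d i).primeFactors) T
        fun i _ => od_cl (hc i)).2 hT
      have hcl := (cl_od hod).1
      rcases Nat.lt_or_ge T.card 3 with h7 | h7
      · have h8 : T.card = 1 := by
          rcases hT with ⟨a, ha⟩
          omega
        obtain ⟨i, rfl⟩ := Finset.card_eq_one.1 h8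
        have h9 : W (fun i => (d i).primeFactors) {i} = (d i).primeFactors := by
          have := W_insert (u := fun i => (d i).primeFactors) (Finset.notMem_empty i)
          have e : (d i).primeFactors ∆ ∅ = (d i).primeFactors := symmDiff_bot _
          rw [W_empty, e, insert_empty_eq] at this
          exact this
        rw [h9, Nat.prod_primeFactors_of_squarefree (hc i).1]
        exact hq i
      · refine qc_of ?_ (h5 T hT h7)
        have := hcl.2
        omega
    rw [hmT, ← tn_tw (hc k).1 ham.1]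
    unfold tn
    by_cases hkT : k ∈ T
    · have h6 : (d k).primeFactors ∆ W (fun i => (d i).primeFactors) T =
          W (fun i => (d i).primeFactors) (T.erase k) := by
        have := W_insert (u := fun i => (d i).primeFactors) (Finset.notMem_erase k T)
        rw [Finset.insert_erase hkT] at this
        rw [this, symmDiff_symmDiff_cancel_left]
      rw [h6]
      refine hW0 _ ?_
      have h7 : (T.erase k).card + 1 = T.card := Finset.card_erase_add_one hkT
      rw [← Nat.not_even_iff_odd]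
      intro h8
      rw [← h7, Nat.even_add_one] at hT
      exact hT h8
    · rw [← W_insert (u := fun i => (d i).primeFactors) hkT]
      refine hW0 _ ?_
      rw [Finset.card_insert_of_notMem hkT]
      exact hT.add_one

end proof

theorem result (A : Set ℕ) (hA : ∀ n ∈ A, Class n) (hd : PositiveUpperDensity A) (b₀ : ℕ)
    (hb : Class b₀) :
    ∃ d : ℕ → ℕ, StrictMono d ∧ (∀ i, d i ∈ A) ∧
      (∀ n, Module.finrank ℚ (level d n) = 2 ^ n) ∧
      StableBelow (pairField d 0) b₀ ∧
      (∀ b, Class b → ∃ j, StableBelow (pairField d j) b) ∧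
      ((∀ n ∈ A, TrivialTwo n) → ∀ k, ∀ (F : IntermediateField ℚ ℂ) [NumberField F],
        F ≤ pairField d 0 → RankFormula F (d k)) :=
  main hA hd hb

end Pool.Agent.Results.MP_cd906c_nt.StableTowersX15
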